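import Pool.Agent.H14R3.Aug.Stmts

/-!
Proof of `TaskDecay` (energy decay of minimal solutions).
-/

set_option autoImplicit false

open scoped ENNReal InnerProductSpace

namespace Pool.Agent.H14R3.Aug

noncomputable section

theorem decayAux_suffix (hB : TreeB) {n : ℕ} (w v g : G n) (t : Fin n × Bool)
    (hw : w = FreeGroup.mk [t] * v) (hwv : w.toWord = t :: v.toWord) :
    (w.toWord <:+ (g * v).toWord ∧ g * v ≠ w) ↔ (Ends t g ∧ 2 ≤ len g) := by
  constructor
  · rintro ⟨⟨A, hA⟩, hne⟩
    have hred : FreeGroup.IsReduced (A ++ [t]) := by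
      have h1 : FreeGroup.IsReduced (g * v).toWord := FreeGroup.isReduced_toWord
      refine h1.infix ⟨[], v.toWord, ?_⟩
      rw [← hA, hwv]
      simp
    have hgv : g = FreeGroup.mk (A ++ [t]) := by
      have h1 : g * v = FreeGroup.mk (A ++ [t]) * v := by
        calc g * v = FreeGroup.mk (g * v).toWord := FreeGroup.mk_toWord.symm
          _ = FreeGroup.mk ((A ++ [t]) ++ v.toWord) := by
              rw [← hA, hwv]
              simp
          _ = FreeGroup.mk (A ++ [t]) * FreeGroup.mk v.toWord := FreeGroup.mul_mk.symm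
          _ = FreeGroup.mk (A ++ [t]) * v := by rw [FreeGroup.mk_toWord]
      exact mul_right_cancel h1
    have hgw : g.toWord = A ++ [t] := by
      rw [hgv, FreeGroup.toWord_mk, hred.reduce_eq]
    refine ⟨?_, ?_⟩
    · unfold Ends
      rw [hgw]
      simp
    · unfold len
      rw [hgw]
      rcases A with _ | ⟨a, A⟩
      · exfalso
        apply hne
        rw [hgv, hw]
        simp
      · simp
  · rintro ⟨hE, hl⟩
    have h1 : (g * v).toWord = g.toWord ++ v.toWord := hB n g v t hE (by rw [← hw, hwv])
    obtain ⟨A, hA⟩ : ∃ A, g.toWord = A ++ [t] := by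
      unfold Ends at hE
      rw [List.getLast?_eq_some_iff] at hE
      exact hE
    have hlA : 1 ≤ A.length := by
      unfold len at hl
      rw [hA] at hl
      simp at hl
      exact hl
    refine ⟨⟨A, ?_⟩, ?_⟩
    · rw [h1, hA, hwv]
      simp
    · intro h2
      have h3 := congrArg (fun z => z.toWord.length) h2
      simp only [h1, hA, hwv, List.length_append, List.length_cons, List.length_nil] at h3
      omega

theorem TaskDecay_proof : TaskDecay := by
  intro hB hRestr hFin hTail n k x S N hx d hd hdK
  classical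
  set R : ℕ := S.sup len with hR
  have hRle : ∀ u ∈ S, len u ≤ R := fun u hu => Finset.le_sup (f := len) hu
  have hex : ∀ t : Fin n × Bool, ∃ L : ℕ, ∀ e ∈ Mcone x S R t,
      ∑' g, Set.indicator {g : G n | L ≤ len g} (fun g => ‖e g‖ ^ 2) g ≤ (1/2) * ‖e‖ ^ 2 :=
    fun t => hTail (G n) len (Mcone x S R t) (hFin n k x S R t)
  choose L hL using hex
  refine ⟨Finset.univ.sup L, ?_⟩
  intro w w' hw hww' hlen
  obtain ⟨t, V, hwtV⟩ : ∃ t V, w.toWord = t :: V := by
    rcases hW : w.toWord with _ | ⟨t, V⟩
    · exfalso
      unfold len at hw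
      rw [hW] at hw
      simp at hw
    · exact ⟨t, V, rfl⟩
  set v : G n := FreeGroup.mk V with hv
  have hVred : FreeGroup.IsReduced V := by
    have h1 : FreeGroup.IsReduced w.toWord := FreeGroup.isReduced_toWord
    refine h1.infix ⟨[t], [], ?_⟩
    rw [hwtV]
    simp
  have hvV : v.toWord = V := by
    rw [hv, FreeGroup.toWord_mk, hVred.reduce_eq]
  have hwv : w.toWord = t :: v.toWord := by rw [hvV, hwtV]
  have hweq : w = FreeGroup.mk [t] * v := by
    rw [hv, FreeGroup.mul_mk, List.singleton_append, ← hwtV, FreeGroup.mk_toWord]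
  have hlenv : len w = len v + 1 := by
    unfold len
    rw [hwv, List.length_cons]
  have hkey := fun g => decayAux_suffix hB w v g t hweq hwv
  -- summability
  have hsum0 : Summable fun g => ‖d g‖ ^ 2 := by
    have h1 := (lp.memℓp d).summable (by norm_num)
    simpa using h1
  have hsum1 : Summable fun g => ‖d (g * v)‖ ^ 2 :=
    (Equiv.mulRight v).summable_iff.mpr hsum0
  -- the restricted function
  have hmem : Memℓp (fun g : G n => if Ends t g ∧ 2 ≤ len g then d (g * v) else 0) 2 := by
    apply memℓp_gen
    have h2 : (2 : ℝ≥0∞).toReal = ((2 : ℕ) : ℝ) := by norm_num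
    simp only [h2, Real.rpow_natCast]
    refine Summable.of_nonneg_of_le (fun g => by positivity) (fun g => ?_) hsum1
    split_ifs
    · exact le_rfl
    · simp
  set e : H (G n) := ⟨_, hmem⟩ with he
  have heval : ∀ g, e g = if Ends t g ∧ 2 ≤ len g then d (g * v) else 0 := fun g => rfl
  have heM : e ∈ Mcone x S R t := by
    refine hRestr n k x S R N hx hRle d hd hdK t v ?_ (by omega) e ?_ ?_
    · rw [← hweq, hwv]
    · intro g h1 h2
      rw [heval, if_pos ⟨h1, h2⟩]
    · intro g h1
      rw [heval, if_neg h1]
  have hnorm : ‖e‖ ^ 2 = ∑' g, ‖e g‖ ^ 2 := by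
    have h1 := lp.norm_rpow_eq_tsum (p := 2) (by norm_num) e
    simpa using h1
  have hsume : Summable fun g => ‖e g‖ ^ 2 := by
    have h1 := (lp.memℓp e).summable (by norm_num)
    simpa using h1
  have hEnw : En d w = ‖e‖ ^ 2 := by
    rw [hnorm]
    unfold En
    rw [← (Equiv.mulRight v).tsum_eq]
    refine tsum_congr fun g => ?_
    rw [Equiv.coe_mulRight, Set.indicator_apply, heval]
    by_cases hg : Ends t g ∧ 2 ≤ len g
    · rw [if_pos hg, if_pos]
      exact (hkey g).mpr hg
    · rw [if_neg hg, if_neg]
      · simp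
      · intro h
        exact hg ((hkey g).mp h)
  have hEnw' : En d w' ≤ ∑' g, Set.indicator {g : G n | L t ≤ len g} (fun g => ‖e g‖ ^ 2) g := by
    unfold En
    have hsumi : Summable fun g : G n => Set.indicator {g : G n | w'.toWord <:+ g.toWord ∧ g ≠ w'}
        (fun g => ‖d g‖ ^ 2) (Equiv.mulRight v g) :=
      (Equiv.summable_iff (Equiv.mulRight v)).mpr
        (hsum0.indicator {g : G n | w'.toWord <:+ g.toWord ∧ g ≠ w'})
    rw [← (Equiv.mulRight v).tsum_eq]
    refine Summable.tsum_le_tsum (fun g => ?_) ?_ ?_
    · rw [Equiv.coe_mulRight, Set.indicator_apply]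
      split_ifs with hg
      · obtain ⟨hg1, hg2⟩ := hg
        change w'.toWord <:+ (g * v).toWord at hg1
        change g * v ≠ w' at hg2
        have h1 : w.toWord <:+ (g * v).toWord := hww'.trans hg1
        have h2 : g * v ≠ w := by
          intro h
          apply hg2
          rw [h] at hg1
          have h3 : w'.toWord = w.toWord :=
            hg1.eq_of_length (le_antisymm hg1.length_le hww'.length_le)
          rw [h]
          exact (FreeGroup.toWord_injective h3).symm
        have h3 := (hkey g).mp ⟨h1, h2⟩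
        have h4 : (g * v).toWord = g.toWord ++ v.toWord :=
          hB n g v t h3.1 (by rw [← hweq, hwv])
        have h5 : len w' ≤ len g + len v := by
          have h6 := hg1.length_le
          rw [h4, List.length_append] at h6
          exact h6
        have h7 : L t ≤ Finset.univ.sup L := Finset.le_sup (f := L) (Finset.mem_univ t)
        have h8 : L t ≤ len g := by omega
        rw [Set.indicator_apply, if_pos (show g ∈ {g : G n | L t ≤ len g} from h8), heval,
          if_pos h3]
      · exact Set.indicator_nonneg (fun _ _ => by positivity) _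
    · exact hsumi
    · exact hsume.indicator _
  calc En d w' ≤ ∑' g, Set.indicator {g : G n | L t ≤ len g} (fun g => ‖e g‖ ^ 2) g := hEnw'
    _ ≤ (1/2) * ‖e‖ ^ 2 := hL t e heM
    _ = (1/2) * En d w := by rw [hEnw]

end

end Pool.Agent.H14R3.Aug
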